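import Pool.Agent.Q81.IM.Stm
import Pool.Agent.Helper289.HardyIso

set_option autoImplicit false

/-! Project IM, job PA: Parseval on circles. -/

namespace Pool.Agent.Q176.IM

open Complex Metric Set MeasureTheory Pool.Agent.Q81.IM
open Pool.Agent.Helper289.Hardy (mean2 mean2_series)

theorem hasSum_coef {h : ℂ → ℂ} (hh : DifferentiableOn ℂ h (ball 0 1)) {z : ℂ}
    (hz : z ∈ ball (0 : ℂ) 1) : HasSum (fun n => coef h n * z ^ n) (h z) := by
  have h1 := Complex.hasSum_taylorSeries_on_ball hh hz
  have e : ∀ n : ℕ, ((n.factorial : ℂ))⁻¹ • (z - 0) ^ n • iteratedDeriv n h 0 =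
      coef h n * z ^ n := by
    intro n
    simp only [coef, sub_zero, smul_eq_mul]
    ring
  simp only [e] at h1
  exact h1

/-- **Job PA.** -/
theorem pa : S_PA := by
  intro h r hh h0 h1
  have hz : (r : ℂ) ∈ ball (0 : ℂ) 1 := by
    rw [mem_ball_zero_iff, Complex.norm_real, Real.norm_of_nonneg h0.le]
    exact h1
  have hs : Summable fun n => ‖coef h n‖ * r ^ n := by
    refine (hasSum_coef hh hz).summable.norm.congr fun n => ?_
    rw [norm_mul, norm_pow, Complex.norm_real, Real.norm_of_nonneg h0.le]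
  exact mean2_series h0.le hs fun z hz' =>
    (hasSum_coef hh (by rw [mem_ball_zero_iff, hz']; exact h1)).tsum_eq.symm

end Pool.Agent.Q176.IM
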